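import Mathlib
import Pool.Agent.Boot.Final
import Pool.Agent.Boot.LowerProb
import Pool.Agent.Boot.UpperProb

/-!
# A critical update family in dimension seven with an irrational exponent

`p_c(ℤ_n^7, F) = (log n) ^ (-(7 + log_2 3) / 3 + o(1))`, and `p_c` is not of the form
`(log_(r) n) ^ (-a + o(1))` for any `r ≥ 1` and any rational `a`.
-/

set_option autoImplicit false

namespace Pool.Agent.Results.MP_c8529a_pr.IrrationalExponent

open MeasureTheory Filter Topology Pointwise

/-- a `d`-dimensional update family: a finite collection of finite subsets of `ℤ^d ∖ {0}` -/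
def IsUpdateFamily {d : ℕ} (F : Finset (Finset (Fin d → ℤ))) : Prop :=
  ∀ X ∈ F, (0 : Fin d → ℤ) ∉ X

/-- one step of the dynamics on an additive group `G`: `A` together with all `x` such that
`x + X ⊆ A` for some rule `X` (`red` sends the vectors of `ℤ^d` to `G`) -/
def step {d : ℕ} {G : Type} [Add G] (red : (Fin d → ℤ) → G) (F : Finset (Finset (Fin d → ℤ)))
    (A : Set G) : Set G :=
  A ∪ {x : G | ∃ X ∈ F, ∀ y ∈ X, x + red y ∈ A}

/-- the closure `[A]`, the union of all `A_t` -/
def clo {d : ℕ} {G : Type} [Add G] (red : (Fin d → ℤ) → G) (F : Finset (Finset (Fin d → ℤ)))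
    (A : Set G) : Set G :=
  ⋃ t : ℕ, (step red F)^[t] A

/-- coordinates modulo `n` -/
def modn (d n : ℕ) (x : Fin d → ℤ) : Fin d → ZMod n := fun i => ((x i : ℤ) : ZMod n)

/-- the discrete half-space `{x ∈ ℤ^d : ⟨x, u⟩ < 0}` -/
def halfSpace {d : ℕ} (u : EuclideanSpace ℝ (Fin d)) : Set (Fin d → ℤ) :=
  {x | ∑ i, (x i : ℝ) * u i < 0}

/-- the stable set: the unit vectors `u` such that the half-space of `u` equals its closure -/
def stableSet {d : ℕ} (F : Finset (Finset (Fin d → ℤ))) :
    Set (Metric.sphere (0 : EuclideanSpace ℝ (Fin d)) 1) :=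
  {u | clo id F (halfSpace (u : EuclideanSpace ℝ (Fin d))) =
    halfSpace (u : EuclideanSpace ℝ (Fin d))}

/-- critical families: the stable set meets every open hemisphere, and its intersection with
some hemisphere has surface measure zero -/
def IsCritical {d : ℕ} (F : Finset (Finset (Fin d → ℤ))) : Prop :=
  (∀ v : Metric.sphere (0 : EuclideanSpace ℝ (Fin d)) 1, ∃ u ∈ stableSet F,
    0 < ∑ i, (u : EuclideanSpace ℝ (Fin d)) i * (v : EuclideanSpace ℝ (Fin d)) i) ∧
  ∃ v : Metric.sphere (0 : EuclideanSpace ℝ (Fin d)) 1,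
    (volume : Measure (EuclideanSpace ℝ (Fin d))).toSphere
      ({u | 0 ≤ ∑ i, (u : EuclideanSpace ℝ (Fin d)) i * (v : EuclideanSpace ℝ (Fin d)) i} ∩
        stableSet F) = 0

open Classical in
/-- the probability that the closure of a random subset of the torus `ℤ_n^d`, which contains each
site independently with probability `p`, is the whole torus -/
noncomputable def percProb {d : ℕ} (n : ℕ) [NeZero n] (F : Finset (Finset (Fin d → ℤ)))
    (p : ℝ) : ℝ :=
  ∑ A ∈ (Finset.univ : Finset (Finset (Fin d → ZMod n))).filter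
      (fun A : Finset (Fin d → ZMod n) => clo (modn d n) F (A : Set (Fin d → ZMod n)) = Set.univ),
    p ^ A.card * (1 - p) ^ (Fintype.card (Fin d → ZMod n) - A.card)

/-- the critical probability on the torus `ℤ_n^d` -/
noncomputable def pcrit {d : ℕ} (n : ℕ) [NeZero n] (F : Finset (Finset (Fin d → ℤ))) : ℝ :=
  sInf {p : ℝ | 0 ≤ p ∧ p ≤ 1 ∧ 1 / 2 ≤ percProb n F p}

/-- `p_c(ℤ_n^d, F) = (log_(r) n) ^ (-a + o(1))` as `n → ∞` (with `n + 1` for `n`) -/
def HasExponent {d : ℕ} (F : Finset (Finset (Fin d → ℤ))) (r : ℕ) (a : ℝ) : Prop :=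
  ∃ o : ℕ → ℝ, Tendsto o atTop (𝓝 0) ∧ ∀ᶠ n : ℕ in atTop,
    pcrit (n + 1) F = (Real.log^[r] ((n + 1 : ℕ) : ℝ)) ^ (-a + o n)

/-! ### the closure -/

section

variable {d : ℕ} {G : Type} [Add G] {red : (Fin d → ℤ) → G} {F : Finset (Finset (Fin d → ℤ))}

theorem iter_mono (A : Set G) : Monotone fun t : ℕ => (step red F)^[t] A := by
  refine monotone_nat_of_le_succ fun t => ?_
  simp only [Function.iterate_succ_apply']
  exact Set.subset_union_left

theorem subset_clo (A : Set G) : A ⊆ clo red F A :=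
  Set.subset_iUnion_of_subset 0 (by simp)

theorem clo_closed (A : Set G) (x : G) (h : ∃ X ∈ F, ∀ y ∈ X, x + red y ∈ clo red F A) :
    x ∈ clo red F A := by
  obtain ⟨X, hX, h⟩ := h
  have h1 : ∀ y ∈ X, ∃ t : ℕ, x + red y ∈ (step red F)^[t] A := fun y hy =>
    Set.mem_iUnion.1 (h y hy)
  choose! t ht using h1
  refine Set.mem_iUnion.2 ⟨X.sup t + 1, ?_⟩
  rw [Function.iterate_succ_apply']
  refine Or.inr ⟨X, hX, fun y hy => ?_⟩
  exact iter_mono A (Finset.le_sup hy) (ht y hy)

theorem clo_subset {A T : Set G} (hA : A ⊆ T)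
    (hT : ∀ x, (∃ X ∈ F, ∀ y ∈ X, x + red y ∈ T) → x ∈ T) : clo red F A ⊆ T := by
  refine Set.iUnion_subset fun t => ?_
  induction t with
  | zero => simpa using hA
  | succ t ih =>
    rw [Function.iterate_succ_apply']
    rintro x (hx | ⟨X, hX, hx⟩)
    · exact ih hx
    · exact hT x ⟨X, hX, fun y hy => ih (hx y hy)⟩

theorem clo_eq_univ_iff (A : Set G) : clo red F A = Set.univ ↔
    ∀ T : Set G, A ⊆ T → (∀ y, (∃ X ∈ F, ∀ x ∈ X, y + red x ∈ T) → y ∈ T) → T = Set.univ := by
  constructor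
  · intro h T hA hT
    exact Set.univ_subset_iff.1 (h ▸ clo_subset hA hT)
  · intro h
    exact h _ (subset_clo A) (clo_closed A)

end

/-- stable directions in terms of the rules -/
theorem mem_stable_iff {d : ℕ} (F : Finset (Finset (Fin d → ℤ)))
    (u : Metric.sphere (0 : EuclideanSpace ℝ (Fin d)) 1) : u ∈ stableSet F ↔
    ∀ X ∈ F, ∃ x ∈ X, 0 ≤ ∑ i, (x i : ℝ) * (u : EuclideanSpace ℝ (Fin d)) i := by
  constructor
  · intro h X hX
    by_contra hcon
    push Not at hcon
    have h1 : (0 : Fin d → ℤ) ∈ clo id F (halfSpace (u : EuclideanSpace ℝ (Fin d))) := by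
      refine clo_closed _ _ ⟨X, hX, fun y hy => subset_clo _ ?_⟩
      rw [zero_add]
      exact hcon y hy
    have h2 : clo id F (halfSpace (u : EuclideanSpace ℝ (Fin d))) =
      halfSpace (u : EuclideanSpace ℝ (Fin d)) := h
    rw [h2] at h1
    have h3 : ∑ i, (((0 : Fin d → ℤ) i : ℤ) : ℝ) * (u : EuclideanSpace ℝ (Fin d)) i < 0 := h1
    simp at h3
  · intro h
    refine Set.Subset.antisymm (clo_subset subset_rfl ?_) (subset_clo _)
    rintro x ⟨X, hX, hx⟩
    obtain ⟨y, hy, hy0⟩ := h X hX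
    have h1 : ∑ i, (((x + id y) i : ℤ) : ℝ) * (u : EuclideanSpace ℝ (Fin d)) i < 0 := hx y hy
    have h2 : ∑ i, (((x + id y) i : ℤ) : ℝ) * (u : EuclideanSpace ℝ (Fin d)) i =
        (∑ i, (x i : ℝ) * (u : EuclideanSpace ℝ (Fin d)) i) +
          ∑ i, (y i : ℝ) * (u : EuclideanSpace ℝ (Fin d)) i := by
      rw [← Finset.sum_add_distrib]
      refine Finset.sum_congr rfl fun i _ => ?_
      simp only [Pi.add_apply, id]
      push_cast
      ring
    show ∑ i, (x i : ℝ) * (u : EuclideanSpace ℝ (Fin d)) i < 0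
    linarith

/-! ### the family is critical -/

theorem sphere_sq {d : ℕ} (u : Metric.sphere (0 : EuclideanSpace ℝ (Fin d)) 1) :
    ∑ i, (u : EuclideanSpace ℝ (Fin d)) i ^ 2 = 1 := by
  have h : ‖(u : EuclideanSpace ℝ (Fin d))‖ = 1 := by simp
  have h2 := EuclideanSpace.norm_sq_eq (u : EuclideanSpace ℝ (Fin d))
  rw [h] at h2
  simpa using h2.symm

theorem toSphere_singleton {d : ℕ} (hd : 2 ≤ d)
    (x : Metric.sphere (0 : EuclideanSpace ℝ (Fin d)) 1) :
    (volume : Measure (EuclideanSpace ℝ (Fin d))).toSphere {x} = 0 := by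
  rw [Measure.toSphere_apply' _ (measurableSet_singleton x), Set.image_singleton]
  have hs : Set.Ioo (0 : ℝ) 1 • ({(x : EuclideanSpace ℝ (Fin d))} :
      Set (EuclideanSpace ℝ (Fin d))) ⊆
      ((Submodule.span ℝ {(x : EuclideanSpace ℝ (Fin d))} :
        Submodule ℝ (EuclideanSpace ℝ (Fin d))) : Set (EuclideanSpace ℝ (Fin d))) := by
    rintro y ⟨t, -, z, hz, rfl⟩
    rw [Set.mem_singleton_iff] at hz
    subst hz
    exact Submodule.smul_mem _ _ (Submodule.mem_span_singleton_self _)
  have hne : (Submodule.span ℝ {(x : EuclideanSpace ℝ (Fin d))} :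
      Submodule ℝ (EuclideanSpace ℝ (Fin d))) ≠ ⊤ := by
    intro h
    have h1 := finrank_span_le_card (R := ℝ) ({(x : EuclideanSpace ℝ (Fin d))} :
      Set (EuclideanSpace ℝ (Fin d)))
    rw [h, finrank_top] at h1
    simp at h1
    omega
  have h0 := Measure.addHaar_submodule (volume : Measure (EuclideanSpace ℝ (Fin d))) _ hne
  rw [measure_mono_null hs h0, mul_zero]

theorem U_critical : IsCritical Boot.U := by
  constructor
  · intro v
    have hv : ((v : EuclideanSpace ℝ (Fin 7)) : Fin 7 → ℝ) ≠ 0 := by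
      intro h
      have h1 := sphere_sq v
      rw [Finset.sum_eq_zero] at h1
      · exact zero_ne_one h1
      · intro i _
        have := congrFun h i
        simp only [Pi.zero_apply] at this
        rw [this]
        norm_num
    obtain ⟨u, hu, hS, hp⟩ := Boot.U_crit.2 _ hv
    have hn : ‖(WithLp.toLp 2 u : EuclideanSpace ℝ (Fin 7))‖ = 1 := by
      have h2 := EuclideanSpace.norm_sq_eq (WithLp.toLp 2 u : EuclideanSpace ℝ (Fin 7))
      have h3 : ‖(WithLp.toLp 2 u : EuclideanSpace ℝ (Fin 7))‖ ^ 2 = 1 := by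
        rw [h2, ← hu]
        simp
      have h4 := norm_nonneg (WithLp.toLp 2 u : EuclideanSpace ℝ (Fin 7))
      nlinarith
    refine ⟨⟨WithLp.toLp 2 u, by simpa using hn⟩, (mem_stable_iff _ _).2 hS, hp⟩
  · refine ⟨⟨EuclideanSpace.single 0 1, by simp⟩, ?_⟩
    have hfin : (stableSet Boot.U).Finite := by
      have hf : (Set.range (fun t : Fin 7 × Bool => (Pi.single t.1 ((Boot.sg t.2 : ℤ) : ℝ) :
          Fin 7 → ℝ))).Finite := Set.finite_range _
      have hinj : Function.Injective (fun u : Metric.sphere (0 : EuclideanSpace ℝ (Fin 7)) 1 =>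
          ((u : EuclideanSpace ℝ (Fin 7)) : Fin 7 → ℝ)) := by
        intro u w h
        apply Subtype.ext
        ext i
        exact congrFun h i
      refine (hf.preimage hinj.injOn).subset ?_
      intro u hu
      have hX := (mem_stable_iff _ u).1 hu
      have hsum := sphere_sq u
      show ((u : EuclideanSpace ℝ (Fin 7)) : Fin 7 → ℝ) ∈ Set.range _
      obtain ⟨w, hw⟩ : ∃ w : Fin 7 → ℝ, w = ((u : EuclideanSpace ℝ (Fin 7)) : Fin 7 → ℝ) :=
        ⟨_, rfl⟩
      rw [← hw]
      have hsum' : ∑ i, w i ^ 2 = 1 := by rw [hw]; exact hsum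
      have hX' : ∀ X ∈ Boot.U, ∃ x ∈ X, 0 ≤ ∑ i, (x i : ℝ) * w i := by rw [hw]; exact hX
      have hne : ∃ i, w i ≠ 0 := by
        by_contra hcon
        push Not at hcon
        simp [hcon] at hsum'
      obtain ⟨i, hi⟩ := hne
      have h0 : ∀ k, k ≠ i → w k = 0 := by
        intro k hk
        by_contra hk0
        obtain ⟨X, hXU, hneg⟩ := Boot.unstable hk hi hk0
        obtain ⟨x, hx, hx0⟩ := hX' X hXU
        exact absurd (hneg x hx) (not_lt.2 hx0)
      have hsq : w i ^ 2 = 1 := by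
        rw [← hsum', Finset.sum_eq_single i]
        · intro b _ hb; rw [h0 b hb]; norm_num
        · intro h; exact absurd (Finset.mem_univ i) h
      have hval : w i = 1 ∨ w i = -1 := by
        rcases mul_eq_zero.1 (show (w i - 1) * (w i + 1) = 0 by linarith [hsq, sq (w i)]) with h | h
        · left; linarith
        · right; linarith
      have hform : w = Pi.single i (w i) := by
        funext k
        by_cases hk : k = i
        · subst hk; simp
        · rw [h0 k hk, Pi.single_eq_of_ne hk]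
      rcases hval with h | h
      · exact ⟨(i, true), by rw [hform, h]; simp [Boot.sg]⟩
      · exact ⟨(i, false), by rw [hform, h]; simp [Boot.sg]⟩
    refine measure_mono_null Set.inter_subset_right ?_
    rw [← Set.biUnion_of_singleton (stableSet Boot.U)]
    exact (measure_biUnion_null_iff hfin.countable).2 fun x _ =>
      toSphere_singleton (by norm_num) x

/-! ### the critical probability -/

open Classical in
theorem percProb_eq (n : ℕ) (p : ℝ) : percProb (n + 1) Boot.U p =
    Boot.Pr p (fun A : Finset (Fin 7 → ZMod (n + 1)) => Boot.Perc (Boot.lift A)) := by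
  unfold percProb Boot.Pr
  apply Finset.sum_congr
  · ext A
    rw [Finset.mem_filter, Finset.mem_filter, ← Boot.perc_iff, clo_eq_univ_iff]
    rfl
  · intro A _
    rfl

theorem pcrit_eq (n : ℕ) : pcrit (n + 1) Boot.U = Boot.pc n := by
  unfold pcrit Boot.pc
  simp only [percProb_eq]

theorem tendsto_LL : Tendsto (fun n : ℕ => Real.log (Real.log ((n : ℝ) + 1))) atTop atTop :=
  Real.tendsto_log_atTop.comp Boot.tendsto_L

/-- two-sided bounds -/
theorem bounds {ε : ℝ} (hε : 0 < ε) (hε' : ε < 1 / 100) : ∀ᶠ n : ℕ in Filter.atTop,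
    (1 - ε) * Boot.alph * Real.log (Real.log ((n : ℝ) + 1)) ≤ - Real.log (Boot.pc n) ∧
    - Real.log (Boot.pc n) ≤ (1 + ε) * Boot.alph * Real.log (Real.log ((n : ℝ) + 1)) :=
  Boot.pc_bounds (fun _ h => Boot.lower_prob h) (fun _ h h' => Boot.upper_prob h h') hε hε'

theorem pc_pos : ∀ᶠ n : ℕ in atTop, 0 < Boot.pc n := by
  have ha := Boot.alph_pos
  filter_upwards [bounds (ε := 1 / 200) (by norm_num) (by norm_num),
    tendsto_LL.eventually_gt_atTop 0] with n h1 h2
  have h3 : 0 < -Real.log (Boot.pc n) := by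
    have : 0 < (1 - 1 / 200) * Boot.alph * Real.log (Real.log ((n : ℝ) + 1)) := by positivity
    linarith [h1.1]
  have h4 : 0 ≤ Boot.pc n := by
    unfold Boot.pc
    exact Real.sInf_nonneg fun p hp => hp.1
  rcases h4.lt_or_eq with h5 | h5
  · exact h5
  · rw [← h5, Real.log_zero] at h3
    linarith

theorem exponent_one : HasExponent Boot.U 1 Boot.alph := by
  have ha := Boot.alph_pos
  refine ⟨fun n => Boot.alph + Real.log (Boot.pc n) / Real.log (Real.log ((n : ℝ) + 1)), ?_, ?_⟩
  · rw [Metric.tendsto_atTop]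
    intro δ hδ
    obtain ⟨ε, hε1, hε2, hε3⟩ : ∃ ε : ℝ, 0 < ε ∧ ε < 1 / 100 ∧ ε * Boot.alph < δ := by
      refine ⟨min (1 / 200) (δ / (2 * Boot.alph)), lt_min (by norm_num) (by positivity),
        lt_of_le_of_lt (min_le_left _ _) (by norm_num), ?_⟩
      calc min (1 / 200) (δ / (2 * Boot.alph)) * Boot.alph
          ≤ (δ / (2 * Boot.alph)) * Boot.alph :=
            mul_le_mul_of_nonneg_right (min_le_right _ _) ha.le
        _ = δ / 2 := by field_simp
        _ < δ := by linarith
    obtain ⟨N, hN⟩ := eventually_atTop.1 ((bounds hε1 hε2).and (tendsto_LL.eventually_gt_atTop 0))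
    refine ⟨N, fun n hn => ?_⟩
    obtain ⟨⟨h1, h2⟩, h3⟩ := hN n hn
    rw [Real.dist_eq, sub_zero]
    have h4 : Boot.alph + Real.log (Boot.pc n) / Real.log (Real.log ((n : ℝ) + 1)) =
        (Boot.alph * Real.log (Real.log ((n : ℝ) + 1)) + Real.log (Boot.pc n)) /
          Real.log (Real.log ((n : ℝ) + 1)) := by
      field_simp
    rw [h4, abs_div, abs_of_pos h3, div_lt_iff₀ h3]
    refine lt_of_le_of_lt ?_ (mul_lt_mul_of_pos_right hε3 h3)
    rw [abs_le]
    constructor <;> nlinarith
  · filter_upwards [pc_pos, tendsto_LL.eventually_gt_atTop 0,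
      Boot.tendsto_L.eventually_gt_atTop 0] with n h1 h2 h3
    rw [pcrit_eq]
    have h4 : -Boot.alph + (Boot.alph + Real.log (Boot.pc n) /
        Real.log (Real.log ((n : ℝ) + 1))) =
        Real.log (Boot.pc n) / Real.log (Real.log ((n : ℝ) + 1)) := by ring
    rw [h4, Function.iterate_one, Nat.cast_add_one, Real.rpow_def_of_pos h3,
      mul_div_cancel₀ _ h2.ne', Real.exp_log h1]

theorem not_exponent (r : ℕ) (hr : 1 ≤ r) (a : ℚ) : ¬ HasExponent Boot.U r (a : ℝ) := by
  rintro ⟨o, ho, h⟩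
  refine Boot.not_tendsto_ratio (fun _ h => Boot.lower_prob h)
    (fun _ h h' => Boot.upper_prob h h') r hr a ?_
  have hlim : Tendsto (fun n => (a : ℝ) - o n) atTop (𝓝 (a : ℝ)) := by
    simpa using ho.const_sub (a : ℝ)
  refine hlim.congr' ?_
  filter_upwards [h, (Boot.tendsto_iter r hr).eventually_gt_atTop 1] with n h1 h2
  rw [pcrit_eq, Nat.cast_add_one] at h1
  have h3 : 0 < Real.log (Real.log^[r] ((n : ℝ) + 1)) := Real.log_pos h2
  rw [h1, Real.log_rpow (by linarith), one_div, Real.log_inv]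
  field_simp
  ring

/-- **An irrational exponent.**  There is a critical update family in dimension `7` with
`p_c(ℤ_n^7) = (log n) ^ (-(7 + log_2 3) / 3 + o(1))`; this exponent is irrational, and `p_c` is not
of the form `(log_(r) n) ^ (-a + o(1))` with `r ≥ 1` and `a` rational. -/
theorem result : ∃ F : Finset (Finset (Fin 7 → ℤ)), IsUpdateFamily F ∧ IsCritical F ∧
    HasExponent F 1 ((7 + Real.logb 2 3) / 3) ∧ Irrational ((7 + Real.logb 2 3) / 3) ∧
    ∀ r : ℕ, 1 ≤ r → ∀ a : ℚ, ¬ HasExponent F r (a : ℝ) := by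
  refine ⟨Boot.U, fun X hX => (Boot.U_valid X hX).2, U_critical, exponent_one, ?_, not_exponent⟩
  rintro ⟨q, hq⟩
  exact Boot.alph_ne_rat q hq.symm

end Pool.Agent.Results.MP_c8529a_pr.IrrationalExponent
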